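import Pool.Agent.Helper16.MT.Bridge

/-!
# Project MT, module K2: approximate arithmetic progressions
-/

set_option autoImplicit false

open Finset

namespace Pool.Agent.Helper16.MT

open Pool.Agent.Helper1.MT (P pc Blocks ApproxAP RelativeAP)

/-- A dense set meets all the parts of some equally cut interval. -/
theorem exists_full (q : ℕ) (hq : 0 < q) (m : ℕ) : ∀ A : Finset ℕ, A ⊆ range (q ^ m) →
    (q - 1) ^ m < A.card → ∃ y l : ℕ, 0 < l ∧ ∀ j < q, ∃ a ∈ A, y + j * l ≤ a ∧
      a < y + (j + 1) * l := by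
  classical
  induction m with
  | zero =>
    intro A hA hc
    have := Finset.card_le_card hA
    simp only [pow_zero, card_range] at this hc
    omega
  | succ m ih =>
    intro A hA hc
    by_cases h : ∃ x, ∀ j < q, x * q + j ∈ A
    · obtain ⟨x, hx⟩ := h
      exact ⟨x * q, 1, one_pos, fun j hj => ⟨x * q + j, hx j hj, by omega, by omega⟩⟩
    · push Not at h
      have hA' : A.image (fun a => a / q) ⊆ range (q ^ m) := by
        intro b hb
        simp only [mem_image] at hb
        obtain ⟨a, ha, rfl⟩ := hb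
        have := hA ha
        simp only [mem_range] at this ⊢
        rw [Nat.div_lt_iff_lt_mul hq, ← pow_succ]
        exact this
      have hfib : A.card ≤ (q - 1) * (A.image (fun a => a / q)).card := by
        apply Finset.card_le_mul_card_image
        intro b _
        obtain ⟨j, hj, hjA⟩ := h b
        have hsub : (A.filter (fun a => a / q = b)) ⊆
            ((range q).erase j).image (fun i => b * q + i) := by
          intro a ha
          simp only [mem_filter] at ha
          simp only [mem_image, mem_erase, mem_range]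
          have hdm := Nat.div_add_mod a q
          rw [ha.2] at hdm
          refine ⟨a % q, ⟨?_, Nat.mod_lt _ hq⟩, by rw [mul_comm]; exact hdm⟩
          intro hcon
          apply hjA
          rw [← hcon, mul_comm b q, hdm]
          exact ha.1
        refine (Finset.card_le_card hsub).trans (Finset.card_image_le.trans ?_)
        rw [Finset.card_erase_of_mem (by simpa using hj), card_range]
      have hc' : (q - 1) ^ m < (A.image (fun a => a / q)).card := by
        rw [pow_succ, mul_comm] at hc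
        exact lt_of_mul_lt_mul_left (hc.trans_le hfib) (Nat.zero_le _)
      obtain ⟨y, l, hl, hyl⟩ := ih _ hA' hc'
      refine ⟨q * y, q * l, by positivity, fun j hj => ?_⟩
      obtain ⟨b, hb, hb1, hb2⟩ := hyl j hj
      simp only [mem_image] at hb
      obtain ⟨a, ha, rfl⟩ := hb
      refine ⟨a, ha, ?_, ?_⟩
      · rw [Nat.le_div_iff_mul_le hq] at hb1
        calc q * y + j * (q * l) = (y + j * l) * q := by ring
          _ ≤ a := hb1
      · rw [Nat.div_lt_iff_lt_mul hq] at hb2
        calc a < (y + (j + 1) * l) * q := hb2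
          _ = q * y + (j + 1) * (q * l) := by ring

/-- A single block contains a prime with index in the range. -/
theorem exists_index {n E B0 M L : ℕ} {f : ℕ → ℕ}
    (hcnt : ∀ v < M, ((range L).filter (fun i => f i = v)).card = pc (n + v * E) (n + v * E + B0))
    {a : ℕ} (ha : a ∈ (range M).filter (fun i => pc (n + i * E) (n + i * E + B0) = 1)) :
    ∃ i < L, f i = a := by
  simp only [mem_filter, mem_range] at ha
  have h := hcnt a ha.1
  rw [ha.2] at h
  obtain ⟨i, hi⟩ := Finset.card_pos.mp (by omega : 0 < ((range L).filter (fun i => f i = a)).card)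
  simp only [mem_filter, mem_range] at hi
  exact ⟨i, hi.1, hi.2⟩

theorem index_lt {L : ℕ} {f : ℕ → ℕ} (hmono : ∀ i j, i ≤ j → j < L → f i ≤ f j)
    {i j : ℕ} (hi : i < L) (h : f i < f j) : i < j := by
  by_contra hcon
  have := hmono j i (by omega) hi
  omega

theorem count_P (N : ℕ) : Nat.count Nat.Prime (P N) = N :=
  Nat.count_nth_of_infinite Nat.infinite_setOfPred_prime N

theorem approxAP (hB : Blocks) : ApproxAP := by
  classical
  obtain ⟨δ, hδ, M0, hM⟩ := hB 1 one_pos
  set M := max M0 (max (cornersTheoremBound (δ / 3)) 1) with hMdef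
  obtain ⟨B0, hB0⟩ := hM M (le_max_left _ _)
  refine ⟨M * (B0 + 1) + 2 * B0, fun D N => ?_⟩
  obtain ⟨n, E, hN, hDE, h2E, hq, hs, _⟩ := hB0 (D + B0) (P N)
  obtain ⟨p0, L, f, hp0, hp0', hfM, hmono, hloc, hcnt, hL⟩ := bridge n E M B0 (by omega) hq
  have hroth := roth_3ap_theorem_nat δ hδ
    ((le_max_left (cornersTheoremBound (δ / 3)) 1).trans (le_max_right M0 _))
    ((range M).filter (fun i => pc (n + i * E) (n + i * E + B0) = 1))
    (Finset.filter_subset _ _) hs
  -- a progression of blocks
  have hap : ∃ a b c, a ∈ (range M).filter (fun i => pc (n + i * E) (n + i * E + B0) = 1) ∧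
      b ∈ (range M).filter (fun i => pc (n + i * E) (n + i * E + B0) = 1) ∧
      c ∈ (range M).filter (fun i => pc (n + i * E) (n + i * E + B0) = 1) ∧
      a < b ∧ a + c = b + b := by
    unfold ThreeAPFree at hroth
    push Not at hroth
    obtain ⟨a, ha, b, hb, c, hc, habc, hne⟩ := hroth
    rw [mem_coe] at ha hb hc
    rcases lt_or_gt_of_ne hne with h | h
    · exact ⟨a, b, c, ha, hb, hc, h, habc⟩
    · exact ⟨c, b, a, hc, hb, ha, by omega, by omega⟩
  obtain ⟨a, b, c, ha, hb, hc, hab, habc⟩ := hap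
  obtain ⟨i, hi, hia⟩ := exists_index hcnt ha
  obtain ⟨j, hj, hjb⟩ := exists_index hcnt hb
  obtain ⟨l, hl, hlc⟩ := exists_index hcnt hc
  have hij : i < j := index_lt hmono hi (by omega)
  have hjl : j < l := index_lt hmono hj (by omega)
  have h1 := hloc i hi
  have h2 := hloc j hj
  have h3 := hloc l hl
  rw [hia] at h1
  rw [hjb] at h2
  rw [hlc] at h3
  have hE1 : a * E + c * E = b * E + b * E := by rw [← add_mul, habc, add_mul]
  have hE2 : a * E + E ≤ b * E := by
    calc a * E + E = (a + 1) * E := by ring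
      _ ≤ b * E := Nat.mul_le_mul_right _ hab
  refine ⟨p0 + i, p0 + j, p0 + l, ?_, by omega, by omega, by omega, by omega, by omega, by omega⟩
  rw [hp0']
  calc N = Nat.count Nat.Prime (P N) := (count_P N).symm
    _ ≤ Nat.count Nat.Prime n := Nat.count_monotone _ hN
    _ ≤ _ := Nat.le_add_right _ _

theorem relativeAP (hB : Blocks) : RelativeAP := by
  classical
  intro k ε hε
  obtain ⟨δ, hδ, M0, hM⟩ := hB 1 one_pos
  obtain ⟨u0, hu0⟩ := exists_nat_ge (1 / ε)
  set u := u0 + 1 with hu
  have hu1 : 1 ≤ ε * u := by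
    rw [div_le_iff₀ hε] at hu0
    have : (u : ℝ) = u0 + 1 := by rw [hu]; push_cast; ring
    rw [this]
    nlinarith
  set q := k * u + 2 with hqdef
  -- the number of blocks
  have hlim : ∃ m : ℕ, M0 ≤ q ^ m ∧ ((q - 1 : ℕ) : ℝ) ^ m < δ * (q : ℝ) ^ m := by
    have hq2 : (2 : ℝ) ≤ q := by rw [hqdef]; push_cast; nlinarith [Nat.cast_nonneg (α := ℝ) (k * u)]
    have hr : ((q - 1 : ℕ) : ℝ) / q < 1 := by
      rw [div_lt_one (by linarith), Nat.cast_sub (by omega)]
      push_cast
      linarith
    obtain ⟨m, hm⟩ := exists_pow_lt_of_lt_one hδ hr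
    refine ⟨max m M0, ?_, ?_⟩
    · have h1 : M0 < q ^ M0 := Nat.lt_pow_self (by omega)
      exact h1.le.trans (Nat.pow_le_pow_right (by omega) (le_max_right _ _))
    · have h2 : (((q - 1 : ℕ) : ℝ) / q) ^ (max m M0) ≤ (((q - 1 : ℕ) : ℝ) / q) ^ m :=
        pow_le_pow_of_le_one (by positivity) hr.le (le_max_left _ _)
      have h3 := h2.trans_lt hm
      rwa [div_pow, div_lt_iff₀ (by positivity)] at h3
  obtain ⟨m, hm0, hm1⟩ := hlim
  obtain ⟨B0, hB0⟩ := hM (q ^ m) hm0
  refine ⟨q ^ m * (B0 + 1), fun D N => ?_⟩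
  obtain ⟨n, E, hN, hDE, h2E, hqq, hs, _⟩ := hB0 D (P N)
  obtain ⟨p0, L, f, hp0, hp0', hfM, hmono, hloc, hcnt, hL⟩ := bridge n E _ B0 (by omega) hqq
  set A := (range (q ^ m)).filter (fun i => pc (n + i * E) (n + i * E + B0) = 1) with hA
  have hcard : (q - 1) ^ m < A.card := by
    have h4 : (((q - 1) ^ m : ℕ) : ℝ) < A.card := by
      rw [Nat.cast_pow]
      refine hm1.trans_le ?_
      rw [Nat.cast_pow] at hs
      exact hs
    exact_mod_cast h4
  obtain ⟨y, l, hl, hyl⟩ := exists_full q (by omega) m A (Finset.filter_subset _ _) hcard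
  have hex : ∀ j, j ≤ k → ∃ i, i < L ∧ y + (u * j) * l ≤ f i ∧ f i < y + (u * j + 1) * l := by
    intro j hj
    have huj : u * j < q := by
      rw [hqdef]
      have : u * j ≤ u * k := Nat.mul_le_mul_left _ hj
      rw [mul_comm k u]
      omega
    obtain ⟨a, ha, ha1, ha2⟩ := hyl (u * j) huj
    obtain ⟨i, hi, hia⟩ := exists_index hcnt ha
    exact ⟨i, hi, by rw [hia]; exact ha1, by rw [hia]; exact ha2⟩
  choose! t ht1 ht2 ht3 using hex
  refine ⟨fun j => p0 + t j, u * l * E, ?_, ?_, ?_, ?_, ?_⟩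
  · rw [hp0']
    calc N = Nat.count Nat.Prime (P N) := (count_P N).symm
      _ ≤ Nat.count Nat.Prime n := Nat.count_monotone _ hN
      _ ≤ _ := Nat.le_add_right _ _
  · exact hDE.trans (Nat.le_mul_of_pos_left _ (by positivity))
  · intro j hj
    have h5 : f (t j) < f (t (j + 1)) := by
      have h6 := ht3 j (by omega)
      have h7 := ht2 (j + 1) (by omega)
      have h8 : (u * j + 1) * l ≤ (u * (j + 1)) * l := by
        apply Nat.mul_le_mul_right
        rw [mul_add, mul_one]
        omega
      omega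
    have := index_lt hmono (ht1 j (by omega)) h5
    dsimp only
    omega
  · have := ht1 k le_rfl
    dsimp only
    omega
  · intro j hj
    dsimp only
    have h1 := hloc _ (ht1 j (by omega))
    have h2 := hloc _ (ht1 (j + 1) (by omega))
    have h3 := ht2 j (by omega)
    have h4 := ht3 j (by omega)
    have h5 := ht2 (j + 1) (by omega)
    have h6 := ht3 (j + 1) (by omega)
    -- cast everything to reals
    have h1a : (n : ℝ) + f (t j) * E ≤ P (p0 + t j) := by exact_mod_cast h1.1
    have h1b : (P (p0 + t j) : ℝ) ≤ n + f (t j) * E + B0 := by exact_mod_cast h1.2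
    have h2a : (n : ℝ) + f (t (j + 1)) * E ≤ P (p0 + t (j + 1)) := by exact_mod_cast h2.1
    have h2b : (P (p0 + t (j + 1)) : ℝ) ≤ n + f (t (j + 1)) * E + B0 := by exact_mod_cast h2.2
    have hE0 : (0 : ℝ) ≤ E := by positivity
    have hBE : (B0 : ℝ) ≤ E := by exact_mod_cast (by omega : B0 ≤ E)
    have hfd1 : (f (t (j + 1)) : ℝ) - f (t j) - u * l ≤ l - 1 := by
      have h7 : f (t (j + 1)) + 1 ≤ y + (u * (j + 1) + 1) * l := h6
      have h8 : (f (t (j + 1)) : ℝ) + 1 ≤ y + (u * (j + 1) + 1) * l := by exact_mod_cast h7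
      have h9 : (y : ℝ) + (u * j) * l ≤ f (t j) := by exact_mod_cast h3
      nlinarith
    have hfd2 : -((l : ℝ) - 1) ≤ (f (t (j + 1)) : ℝ) - f (t j) - u * l := by
      have h7 : f (t j) + 1 ≤ y + (u * j + 1) * l := h4
      have h8 : (f (t j) : ℝ) + 1 ≤ y + (u * j + 1) * l := by exact_mod_cast h7
      have h9 : (y : ℝ) + (u * (j + 1)) * l ≤ f (t (j + 1)) := by exact_mod_cast h5
      nlinarith
    have hm1 : ((f (t (j + 1)) : ℝ) - f (t j) - u * l) * E ≤ (l - 1) * E :=
      mul_le_mul_of_nonneg_right hfd1 hE0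
    have hm2 : -((l : ℝ) - 1) * E ≤ ((f (t (j + 1)) : ℝ) - f (t j) - u * l) * E :=
      mul_le_mul_of_nonneg_right hfd2 hE0
    have hfin : (l : ℝ) * E ≤ ε * ((u * l * E : ℕ) : ℝ) := by
      push_cast
      have h10 : (0 : ℝ) ≤ (l : ℝ) * E := by positivity
      nlinarith
    refine le_trans ?_ hfin
    push_cast
    rw [abs_le]
    constructor
    · nlinarith
    · nlinarith

end Pool.Agent.Helper16.MT
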