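import Mathlib

/-!
# Project MT: good windows of a monotone function

For a monotone `f : [0, L) → [0, M)` with `S` the set of values that are taken exactly once and
`T` the set of values that are taken at least twice, many `i` have `f i, ..., f (i + r) ∈ S` with
small differences.
-/

set_option autoImplicit false

open Finset

namespace Pool.Agent.Helper16.MT

/-- The values that are taken exactly once. -/
def sgl (M L : ℕ) (f : ℕ → ℕ) : Finset ℕ :=
  (range M).filter (fun v => ((range L).filter (fun i => f i = v)).card = 1)

/-- The values that are taken at least twice. -/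
def mlt (M L : ℕ) (f : ℕ → ℕ) : Finset ℕ :=
  (range M).filter (fun v => 2 ≤ ((range L).filter (fun i => f i = v)).card)

/-- The good windows. -/
def good (M L : ℕ) (f : ℕ → ℕ) (r C : ℕ) : Finset ℕ :=
  (range L).filter (fun i => i + r < L ∧ (∀ j ≤ r, f (i + j) ∈ sgl M L f) ∧
    ∀ j < r, f (i + j + 1) ≤ f (i + j) + C)

theorem sgl_lt {M L : ℕ} {f : ℕ → ℕ} (hmono : ∀ i j, i ≤ j → j < L → f i ≤ f j)
    {i j : ℕ} (hi : f i ∈ sgl M L f) (hij : i < j) (hj : j < L) : f i < f j := by
  rcases Nat.lt_or_ge (f i) (f j) with h | h
  · exact h
  · exfalso
    have heq : f j = f i := le_antisymm h (hmono i j hij.le hj)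
    simp only [sgl, mem_filter, mem_range] at hi
    have h1 : ({i, j} : Finset ℕ) ⊆ (range L).filter (fun a => f a = f i) := by
      intro a ha
      simp only [mem_insert, mem_singleton] at ha
      rcases ha with rfl | rfl
      · simp only [mem_filter, mem_range, and_true]; omega
      · simp only [mem_filter, mem_range]; exact ⟨hj, heq⟩
    have h2 := Finset.card_le_card h1
    rw [hi.2, Finset.card_pair hij.ne] at h2
    omega

theorem card_good (M L : ℕ) (f : ℕ → ℕ) (r C : ℕ) (hM : ∀ i < L, f i < M)
    (hmono : ∀ i j, i ≤ j → j < L → f i ≤ f j) :
    (sgl M L f).card ≤ (good M L f r C).card + r + r * (mlt M L f).card +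
      r * (M / (C + 1) + 1) := by
  classical
  -- the indices with single values
  set S' := (range L).filter (fun i => f i ∈ sgl M L f) with hS'
  have h1 : (sgl M L f).card ≤ S'.card := by
    have : sgl M L f ⊆ S'.image f := by
      intro v hv
      have hv' := hv
      simp only [sgl, mem_filter, mem_range] at hv'
      have : 0 < ((range L).filter (fun i => f i = v)).card := by omega
      obtain ⟨i, hi⟩ := Finset.card_pos.mp this
      simp only [mem_filter, mem_range] at hi
      refine Finset.mem_image.mpr ⟨i, ?_, hi.2⟩
      simp only [hS', mem_filter, mem_range]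
      exact ⟨hi.1, by rw [hi.2]; exact hv⟩
    exact (Finset.card_le_card this).trans Finset.card_image_le
  set E1 := (range L).filter (fun i => L ≤ i + r) with hE1
  set B := fun j => (range L).filter (fun i => i + j + 1 < L ∧ f (i + j) ∈ sgl M L f ∧
    f (i + j + 1) ∉ sgl M L f) with hB
  set D := fun j => (range L).filter (fun i => i + j + 1 < L ∧ f (i + j) + C < f (i + j + 1))
    with hD
  have hsub : S' ⊆ good M L f r C ∪ E1 ∪ (range r).biUnion B ∪ (range r).biUnion D := by
    intro i hi
    simp only [hS', mem_filter, mem_range] at hi
    by_contra hcon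
    simp only [mem_union, not_or, mem_biUnion, mem_range, not_exists, not_and] at hcon
    obtain ⟨⟨⟨hg, he⟩, hb⟩, hd⟩ := hcon
    have hir : i + r < L := by
      by_contra h
      apply he
      simp only [hE1, mem_filter, mem_range]
      exact ⟨hi.1, by omega⟩
    apply hg
    simp only [good, mem_filter, mem_range]
    refine ⟨hi.1, hir, ?_, ?_⟩
    · intro j hj
      induction j with
      | zero => exact hi.2
      | succ j ih =>
        by_contra hns
        have := hb j (by omega)
        apply this
        simp only [hB, mem_filter, mem_range]
        exact ⟨hi.1, by omega, ih (by omega), hns⟩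
    · intro j hj
      by_contra hns
      have := hd j hj
      apply this
      simp only [hD, mem_filter, mem_range]
      exact ⟨hi.1, by omega, by omega⟩
  have hE1c : E1.card ≤ r := by
    have : E1 ⊆ Ico (L - r) L := by
      intro i hi
      simp only [hE1, mem_filter, mem_range] at hi
      simp only [mem_Ico]
      omega
    refine (Finset.card_le_card this).trans ?_
    rw [Nat.card_Ico]
    omega
  have hBc : ∀ j, (B j).card ≤ (mlt M L f).card := by
    intro j
    apply Finset.card_le_card_of_injOn (fun i => f (i + j + 1))
    · intro i hi
      simp only [hB, coe_filter, mem_range, Set.mem_ofPred_eq] at hi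
      simp only [mlt, coe_filter, mem_range, Set.mem_ofPred_eq]
      refine ⟨hM _ hi.2.1, ?_⟩
      have h3 : ((range L).filter (fun a => f a = f (i + j + 1))).card ≠ 1 := by
        intro h
        apply hi.2.2.2
        simp only [sgl, mem_filter, mem_range]
        exact ⟨hM _ hi.2.1, h⟩
      have h4 : 0 < ((range L).filter (fun a => f a = f (i + j + 1))).card := by
        apply Finset.card_pos.mpr
        exact ⟨i + j + 1, by simp only [mem_filter, mem_range, and_true]; exact hi.2.1⟩
      omega
    · have key : ∀ i i', i ∈ B j → i' ∈ B j → f (i + j + 1) = f (i' + j + 1) → ¬ i < i' := by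
        intro i i' hi hi' heq hlt
        simp only [hB, mem_filter, mem_range] at hi hi'
        have h5 : f (i + j + 1) ≤ f (i' + j) := hmono _ _ (by omega) (by omega)
        have h6 : f (i' + j) < f (i' + j + 1) := sgl_lt hmono hi'.2.2.1 (by omega) hi'.2.1
        omega
      intro i hi i' hi' heq
      rcases Nat.lt_trichotomy i i' with h | h | h
      · exact absurd h (key i i' hi hi' heq)
      · exact h
      · exact absurd h (key i' i hi' hi heq.symm)
  have hDc : ∀ j, (D j).card ≤ M / (C + 1) + 1 := by
    intro j
    rw [← card_range (M / (C + 1) + 1)]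
    apply Finset.card_le_card_of_injOn (fun i => f (i + j + 1) / (C + 1))
    · intro i hi
      simp only [hD, coe_filter, mem_range, Set.mem_ofPred_eq] at hi
      simp only [coe_range, Set.mem_Iio]
      have := Nat.div_le_div_right (c := C + 1) (hM _ hi.2.1).le
      omega
    · have key : ∀ i i', i ∈ D j → i' ∈ D j → i < i' →
          f (i + j + 1) / (C + 1) < f (i' + j + 1) / (C + 1) := by
        intro i i' hi hi' hlt
        simp only [hD, mem_filter, mem_range] at hi hi'
        have h5 : f (i + j + 1) ≤ f (i' + j) := hmono _ _ (by omega) (by omega)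
        have h6 : f (i + j + 1) + (C + 1) ≤ f (i' + j + 1) := by omega
        have h7 := Nat.div_le_div_right (c := C + 1) h6
        rw [Nat.add_div_right _ (Nat.succ_pos C), Nat.succ_eq_add_one] at h7
        omega
      intro i hi i' hi' heq
      rcases Nat.lt_trichotomy i i' with h | h | h
      · exact absurd heq (key i i' hi hi' h).ne
      · exact h
      · exact absurd heq (key i' i hi' hi h).ne'
  have hsum := (Finset.card_le_card hsub).trans (Finset.card_union_le _ _)
  have hsum2 := Finset.card_union_le (good M L f r C ∪ E1) ((range r).biUnion B)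
  have hsum3 := Finset.card_union_le (good M L f r C) E1
  have hb1 : ((range r).biUnion B).card ≤ r * (mlt M L f).card := by
    refine Finset.card_biUnion_le.trans ?_
    refine (Finset.sum_le_sum (fun j _ => hBc j)).trans ?_
    simp
  have hd1 : ((range r).biUnion D).card ≤ r * (M / (C + 1) + 1) := by
    refine Finset.card_biUnion_le.trans ?_
    refine (Finset.sum_le_sum (fun j _ => hDc j)).trans ?_
    simp
  omega

end Pool.Agent.Helper16.MT
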