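import Pool.Agent.Helper16.MT.Bridge
import Pool.Agent.Helper16.MT.Windows

/-!
# Project MT, module K1: repeated blocks of large prime gaps
-/

set_option autoImplicit false

open Finset

namespace Pool.Agent.Helper16.MT

open Pool.Agent.Helper1.MT (P pc Blocks RepeatedGaps)

theorem repeatedGaps (hB : Blocks) : RepeatedGaps := by
  classical
  intro r k
  -- the constants
  obtain ⟨δ, hδ, M0, hM⟩ := hB (1 / (4 * ((r : ℝ) + 1))) (by positivity)
  obtain ⟨C, hC⟩ := exists_nat_ge (8 * (r : ℝ) / δ)
  obtain ⟨M1, hM1⟩ := exists_nat_ge ((8 : ℝ) * (k * (C + 1) ^ r + 2 * r) / (5 * δ))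
  obtain ⟨B0, hB0⟩ := hM (max M0 M1) (le_max_left _ _)
  set M := max M0 M1 with hMdef
  have hMbig : (k : ℝ) * (C + 1) ^ r + 2 * r ≤ 5 / 8 * (δ * M) := by
    have h1 : (M1 : ℝ) ≤ M := by exact_mod_cast le_max_right _ _
    have h2 := hM1.trans h1
    rw [div_le_iff₀ (by positivity)] at h2
    linarith
  refine ⟨M * (B0 + 1) + B0, fun D N => ?_⟩
  obtain ⟨n, E, hN, hDE, h2E, hq, hs, hm⟩ := hB0 D (P N)
  obtain ⟨p0, L, f, hp0, hp0', hfM, hmono, hloc, hcnt, hL⟩ := bridge n E M B0 (by omega) hq
  have hsgl : ((range M).filter (fun i => pc (n + i * E) (n + i * E + B0) = 1)) = sgl M L f := by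
    unfold sgl
    apply Finset.filter_congr
    intro v hv
    rw [hcnt v (by simpa using hv)]
  have hmlt : ((range M).filter (fun i => 2 ≤ pc (n + i * E) (n + i * E + B0))) = mlt M L f := by
    unfold mlt
    apply Finset.filter_congr
    intro v hv
    rw [hcnt v (by simpa using hv)]
  rw [hsgl] at hs hm
  rw [hmlt] at hm
  have hgood := card_good M L f r C hfM hmono
  -- many good windows
  have hmany : k * (C + 1) ^ r ≤ (good M L f r C).card := by
    have h3 : ((sgl M L f).card : ℝ) ≤ (good M L f r C).card + r + r * (mlt M L f).card +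
      r * (((M / (C + 1) : ℕ) : ℝ) + 1) := by exact_mod_cast hgood
    have h4 : (((M / (C + 1) : ℕ) : ℝ)) ≤ (M : ℝ) / (C + 1) := by
      have := @Nat.cast_div_le ℝ _ _ _ M (C + 1)
      simpa using this
    have h5 : (r : ℝ) * ((M : ℝ) / (C + 1)) ≤ (sgl M L f).card / 8 := by
      have h6 : 8 * (r : ℝ) ≤ δ * (C + 1) := by
        rw [div_le_iff₀ hδ] at hC
        nlinarith
      have h7 : (r : ℝ) * ((M : ℝ) / (C + 1)) ≤ δ * M / 8 := by
        rw [← mul_div_assoc, div_le_div_iff₀ (by positivity) (by norm_num)]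
        have hM0' : (0 : ℝ) ≤ M := by positivity
        nlinarith
      linarith
    have h8 : (r : ℝ) * (mlt M L f).card ≤ (sgl M L f).card / 4 := by
      have h9 : (r : ℝ) * (mlt M L f).card ≤
          r * (1 / (4 * ((r : ℝ) + 1)) * (sgl M L f).card) :=
        mul_le_mul_of_nonneg_left hm (by positivity)
      have h10 : r * (1 / (4 * ((r : ℝ) + 1)) * (sgl M L f).card) ≤ (sgl M L f).card / 4 := by
        have h11 : (r : ℝ) / (r + 1) ≤ 1 := by
          rw [div_le_one (by positivity)]; linarith
        have h12 : r * (1 / (4 * ((r : ℝ) + 1)) * (sgl M L f).card) =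
            (r : ℝ) / (r + 1) * ((sgl M L f).card / 4) := by
          field_simp
        rw [h12]
        have h13 : (0 : ℝ) ≤ ((sgl M L f).card : ℝ) / 4 := by positivity
        nlinarith
      linarith
    have h14 : (r : ℝ) * (((M / (C + 1) : ℕ) : ℝ)) ≤ r * ((M : ℝ) / (C + 1)) :=
      mul_le_mul_of_nonneg_left h4 (by positivity)
    have h15 : (k : ℝ) * (C + 1) ^ r ≤ (good M L f r C).card := by nlinarith
    exact_mod_cast h15
  -- the pigeonhole principle
  let F : ℕ → (Fin r → Fin (C + 1)) := fun i j =>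
    Fin.ofNat (C + 1) (f (i + j + 1) - f (i + j))
  obtain ⟨g, _, hg⟩ := Finset.exists_le_card_fiber_of_mul_le_card_of_maps_to
    (s := good M L f r C) (t := (univ : Finset (Fin r → Fin (C + 1)))) (f := F) (n := k)
    (fun i _ => mem_univ _) ⟨fun _ => 0, mem_univ _⟩ (by
      rw [card_univ, Fintype.card_fun, Fintype.card_fin, Fintype.card_fin, mul_comm]
      exact hmany)
  refine ⟨p0, ?_, fun j => if h : j < r then max 1 (g ⟨j, h⟩ : ℕ) * E else E, ?_, ?_⟩
  · rw [hp0']
    have : N = Nat.count Nat.Prime (P N) :=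
      (Nat.count_nth_of_infinite Nat.infinite_setOfPred_prime N).symm
    rw [this]
    exact Nat.count_monotone _ hN
  · intro j
    dsimp only
    split_ifs with h
    · exact hDE.trans (Nat.le_mul_of_pos_left _ (by positivity))
    · exact hDE
  · refine hg.trans ?_
    apply Finset.card_le_card_of_injOn (fun i => p0 + i)
    · intro i hi
      simp only [coe_filter, Set.mem_ofPred_eq] at hi
      obtain ⟨hi1, hi2⟩ := hi
      have hi3 := hi1
      simp only [good, mem_filter, mem_range] at hi3
      obtain ⟨hiL, hirL, hS, hCd⟩ := hi3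
      simp only [coe_filter, mem_Ico, Set.mem_ofPred_eq]
      refine ⟨⟨by omega, by omega⟩, ?_⟩
      intro j hj
      rw [dif_pos hj]
      have hlt : f (i + j) < f (i + j + 1) :=
        sgl_lt hmono (hS j (by omega)) (by omega) (by omega)
      have hval : (g ⟨j, hj⟩ : ℕ) = f (i + j + 1) - f (i + j) := by
        rw [← hi2]
        change ((Fin.ofNat (C + 1) (f (i + j + 1) - f (i + j))) : ℕ) = _
        rw [Fin.val_ofNat]
        apply Nat.mod_eq_of_lt
        have := hCd j hj
        omega
      have hmax : max 1 (g ⟨j, hj⟩ : ℕ) = f (i + j + 1) - f (i + j) := by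
        rw [hval]; omega
      rw [hmax]
      have ha := hloc (i + j) (by omega)
      have hb := hloc (i + j + 1) (by omega)
      have hE' : (f (i + j + 1) - f (i + j)) * E = f (i + j + 1) * E - f (i + j) * E :=
        Nat.sub_mul _ _ _
      have hle : f (i + j) * E ≤ f (i + j + 1) * E := Nat.mul_le_mul_right _ hlt.le
      rw [hE']
      rw [show p0 + i + j = p0 + (i + j) by omega,
        show p0 + (i + j) + 1 = p0 + (i + j + 1) by omega]
      constructor
      · omega
      · omega
    · intro i _ i' _ h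
      dsimp only at h
      omega

end Pool.Agent.Helper16.MT
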