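import Pool.Agent.Helper1.MT.Defs

/-!
# Project MT: from blocks to indices of primes

`bridge`: the primes of `[n, n + M E)` are `P (π₀ + i)`, `i < L`, and `f i` is the block of the
`i`-th of them.
-/

set_option autoImplicit false

open Finset

namespace Pool.Agent.Helper16.MT

open Pool.Agent.Helper1.MT (P pc)

theorem P_prime (i : ℕ) : (P i).Prime := Nat.prime_nth_prime i

theorem P_strictMono : StrictMono P := Nat.nth_strictMono Nat.infinite_setOfPred_prime

theorem P_count {q : ℕ} (hq : q.Prime) : P (Nat.count Nat.Prime q) = q := Nat.nth_count hq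

theorem le_P (i : ℕ) : i ≤ P i := P_strictMono.id_le i

theorem P_ge_of_count_le {n i : ℕ} (h : Nat.count Nat.Prime n ≤ i) : n ≤ P i := by
  by_contra hlt
  push Not at hlt
  have h1 : Nat.count Nat.Prime (P i) = i := Nat.count_nth_of_infinite Nat.infinite_setOfPred_prime i
  have h2 : Nat.count Nat.Prime (P i) < Nat.count Nat.Prime n :=
    Nat.count_strict_mono (P_prime i) hlt
  omega

theorem P_lt_of_lt_count {n i : ℕ} (h : i < Nat.count Nat.Prime n) : P i < n :=
  Nat.nth_lt_of_lt_count h

/-- The structure of the primes in `[n, n + M E)` if they are all in the blocks. -/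
theorem bridge (n E M B0 : ℕ) (h2 : B0 < E)
    (hq : ∀ q : ℕ, q.Prime → n ≤ q → q < n + M * E →
      ∃ i < M, n + i * E ≤ q ∧ q ≤ n + i * E + B0) :
    ∃ (p0 L : ℕ) (f : ℕ → ℕ), n ≤ P p0 ∧ (p0 = Nat.count Nat.Prime n) ∧
      (∀ i < L, f i < M) ∧ (∀ i j, i ≤ j → j < L → f i ≤ f j) ∧
      (∀ i < L, n + f i * E ≤ P (p0 + i) ∧ P (p0 + i) ≤ n + f i * E + B0) ∧
      (∀ v < M, ((range L).filter (fun i => f i = v)).card = pc (n + v * E) (n + v * E + B0)) ∧
      L ≤ M * (B0 + 1) := by
  classical
  have hE : 0 < E := by omega
  set p0 := Nat.count Nat.Prime n with hp0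
  set p1 := Nat.count Nat.Prime (n + M * E) with hp1
  have hmono : p0 ≤ p1 := Nat.count_monotone _ (by omega)
  have hblock : ∀ i < p1 - p0, (P (p0 + i) - n) / E < M ∧
      n + ((P (p0 + i) - n) / E) * E ≤ P (p0 + i) ∧
      P (p0 + i) ≤ n + ((P (p0 + i) - n) / E) * E + B0 := by
    intro i hi
    have ha : n ≤ P (p0 + i) := P_ge_of_count_le (by omega)
    have hb : P (p0 + i) < n + M * E := P_lt_of_lt_count (by omega)
    obtain ⟨v, hv, h3, h4⟩ := hq _ (P_prime _) ha hb
    have hval : (P (p0 + i) - n) / E = v := by
      rw [Nat.div_eq_iff hE]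
      constructor
      · omega
      · omega
    rw [hval]
    exact ⟨hv, h3, h4⟩
  have hcount : ∀ v < M, ((range (p1 - p0)).filter
      (fun i => (P (p0 + i) - n) / E = v)).card = pc (n + v * E) (n + v * E + B0) := by
    intro v hv
    unfold pc
    refine Finset.card_bij (fun i _ => P (p0 + i)) ?_ ?_ ?_
    · intro i hi
      simp only [mem_filter, mem_range] at hi
      have := hblock i hi.1
      rw [hi.2] at this
      simp only [mem_filter, mem_Icc]
      exact ⟨⟨this.2.1, this.2.2⟩, P_prime _⟩
    · intro i _ j _ hij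
      have := P_strictMono.injective hij
      omega
    · intro q hq'
      simp only [mem_filter, mem_Icc] at hq'
      have hvE : (v + 1) * E ≤ M * E := Nat.mul_le_mul_right _ hv
      have hvE' : (v + 1) * E = v * E + E := by ring
      have h5 : q < n + M * E := by omega
      have h6 : n ≤ q := le_trans (Nat.le_add_right _ _) hq'.1.1
      have h7 : p0 ≤ Nat.count Nat.Prime q := Nat.count_monotone _ h6
      have h8 : Nat.count Nat.Prime q < p1 := Nat.count_strict_mono hq'.2 h5
      refine ⟨Nat.count Nat.Prime q - p0, ?_, ?_⟩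
      · simp only [mem_filter, mem_range]
        refine ⟨by omega, ?_⟩
        rw [show p0 + (Nat.count Nat.Prime q - p0) = Nat.count Nat.Prime q by omega,
          P_count hq'.2, Nat.div_eq_iff hE]
        constructor
        · omega
        · omega
      · rw [show p0 + (Nat.count Nat.Prime q - p0) = Nat.count Nat.Prime q by omega,
          P_count hq'.2]
  refine ⟨p0, p1 - p0, fun i => (P (p0 + i) - n) / E, P_ge_of_count_le le_rfl, rfl,
    fun i hi => (hblock i hi).1, ?_, fun i hi => (hblock i hi).2, hcount, ?_⟩
  · intro i j hij _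
    apply Nat.div_le_div_right
    exact Nat.sub_le_sub_right (P_strictMono.monotone (by omega)) _
  · have h1 : (range (p1 - p0)).card = ∑ v ∈ range M,
        ((range (p1 - p0)).filter (fun i => (P (p0 + i) - n) / E = v)).card := by
      apply Finset.card_eq_sum_card_fiberwise
      intro i hi
      simp only [coe_range, Set.mem_Iio] at hi ⊢
      exact (hblock i hi).1
    rw [card_range] at h1
    rw [h1]
    calc ∑ v ∈ range M,
        ((range (p1 - p0)).filter (fun i => (P (p0 + i) - n) / E = v)).card
        ≤ ∑ v ∈ range M, (B0 + 1) := by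
          apply Finset.sum_le_sum
          intro v hv
          rw [hcount v (by simpa using hv)]
          unfold pc
          refine (Finset.card_filter_le _ _).trans ?_
          rw [Nat.card_Icc]
          omega
      _ = M * (B0 + 1) := by simp

end Pool.Agent.Helper16.MT
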